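import Pool.Agent.VRing91.TwoSided
import Pool.Agent.VRing6.Nu.Main
import Pool.Agent.VRing6.Nu.Convert

/-!
# Two-sided V-rings: the base `ℵ₁` of the rank induction (MP_2175e6_al, helper91)
-/

open MulOpposite Pool.Agent.VRing Pool.Agent.VRing23 Cardinal

namespace Pool.Agent.VRing91

open Pool.Agent.VRing6.Room Pool.Agent.VRing6.Nu

universe u

/-- Factor rings of left V-rings are left V-rings. -/
theorem leftV_of_surjective {R U : Type u} [Ring R] [Ring U] (f : R →+* U)
    (hf : Function.Surjective f) (hV : LeftV R) : LeftV U := by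
  intro M _ _ hM
  let _ : Module R M := Module.compHom M f
  have _ : RingHomSurjective f := ⟨hf⟩
  let l : M →ₛₗ[f] M :=
    { toFun := fun m => m
      map_add' := fun _ _ => rfl
      map_smul' := fun _ _ => rfl }
  have hMR : IsSimpleModule R M :=
    (LinearMap.isSimpleModule_iff_of_bijective l Function.bijective_id).mpr hM
  have hinj := hV M hMR
  refine ⟨fun X Y _ _ _ _ i hi g => ?_⟩
  let _ : Module R X := Module.compHom X f
  let _ : Module R Y := Module.compHom Y f
  let i' : X →ₗ[R] Y :=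
    { toFun := i
      map_add' := map_add i
      map_smul' := fun r x => map_smul i (f r) x }
  let g' : X →ₗ[R] M :=
    { toFun := g
      map_add' := map_add g
      map_smul' := fun r x => map_smul g (f r) x }
  obtain ⟨h, hh⟩ := hinj.out i' hi g'
  refine ⟨{ toFun := h, map_add' := map_add h, map_smul' := ?_ }, hh⟩
  intro c y
  obtain ⟨r, rfl⟩ := hf c
  exact map_smul h r y

/-- Every proper finitely generated right ideal has a nonzero left annihilator. -/
def Ann (T : Type u) [Ring T] : Prop :=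
  ∀ s : Finset T, Submodule.span Tᵐᵒᵖ (s : Set T) ≠ ⊤ → ∃ z : T, z ≠ 0 ∧ ∀ y ∈ s, z * y = 0

lemma mul_eq_zero_of_mem_span {T : Type u} [Ring T] {Y : Set T} {z : T}
    (h : ∀ y ∈ Y, z * y = 0) {x : T} (hx : x ∈ Submodule.span Tᵐᵒᵖ Y) : z * x = 0 := by
  induction hx using Submodule.span_induction with
  | mem y hy => exact h y hy
  | zero => rw [mul_zero]
  | add a b _ _ ha hb => rw [mul_add, ha, hb, add_zero]
  | smul c y _ hy =>
    change z * (y * c.unop) = 0
    rw [← mul_assoc, hy, zero_mul]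

lemma Ann.hasWit {T : Type u} [Ring T] (h : Ann T) : HasWit T := by
  intro s hs
  obtain ⟨z, hz, hzs⟩ := h s ((span_ne_top_iff _).mpr hs)
  refine ⟨z, hz, fun A hA => ?_⟩
  obtain ⟨y, hy, a, ha, h1⟩ := mem_span_union hA
  have hzy : z * y = 0 := mul_eq_zero_of_mem_span (Y := (s : Set T)) hzs hy
  have h2 : z = z * a := by
    calc z = z * (y + a) := by rw [← h1, mul_one]
      _ = z * a := by rw [mul_add, hzy, zero_add]
  rw [h2]
  exact A.mul_mem_left _ _ ha

lemma VNR.ann {T : Type u} [Ring T] (h : VNR T) : Ann T := by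
  intro s hs
  obtain ⟨e, he, he1⟩ := h.exists_ann s
  refine ⟨e, ?_, he⟩
  rintro rfl
  rw [sub_zero] at he1
  exact (span_ne_top_iff _).mp hs he1

/-- The class of rings. -/
def TwoV (T : Type u) [Ring T] : Prop :=
  RightV T ∧ LeftV T ∧ ∀ (U : Type u) [Ring U] (f : T →+* U), Function.Surjective f → Pr U →
    ¬ RightPrimitive U → Ann U

lemma good_twoV : Good (fun (T : Type u) [Ring T] => TwoV T) where
  surj := by
    intro T U _ _ f hf hT
    exact ⟨VRing6.rightV_of_surjective f hf hT.1, leftV_of_surjective f hf hT.2.1,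
      fun W _ g hg => hT.2.2 W (g.comp f) (hg.comp hf)⟩
  ok := by
    intro T _ hT
    refine ⟨hT.1.weaklyRegular, fun U _ f hf _ hp hn => ⟨?_, (hT.2.2 U f hf hp hn).hasWit⟩⟩
    exact RightV.jZero (VRing6.rightV_of_surjective f hf hT.1)

/-- The base of the induction. -/
theorem allTreat_aleph_one (κ₀ : Cardinal.{u}) (α : Type u) [LinearOrder α] :
    AllTreat (fun (T : Type u) [Ring T] => TwoV T) ℵ₁ κ₀ α ℵ₁ := by
  intro T _ _ hT hp _ hn G hG hGc
  have hann : Ann T := hT.2.2 T (RingHom.id T) Function.surjective_id hp hn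
  obtain ⟨F, hF1, hF2⟩ := exists_treat_aleph_one hp hT.1 hT.2.1 hann ∅ Set.countable_empty (by
    rw [Submodule.span_empty]
    exact bot_ne_top) G hGc hG
  rw [Set.empty_union] at hF2
  exact ⟨Set.range F, hF2, fun g hg => ⟨F ⟨g, hg⟩, ⟨_, rfl⟩, hF1 ⟨g, hg⟩⟩,
    mk_range_le.trans hGc⟩

/-- Two-sided V-rings: the rank theorem. -/
theorem rightPrimitive_of_rk (α : Type u) [LinearOrder α] [WellFoundedLT α]
    (hα : #α ≤ ℵ₁) (T : Type u) [Ring T] [Nontrivial T] (hT : TwoV T) (hp : Pr T) (X : Set T)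
    (hX : Coin X) (hR : Rk ℵ₁ #X α T) : RightPrimitive T :=
  primitive_of_rk good_twoV (aleph0_le_aleph 1) α hα (fun κ₀ => allTreat_aleph_one κ₀ α) T hT hp
    X hX hR

end Pool.Agent.VRing91
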