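import Pool.Agent.VRing23.Regular

/-!
# Prime rings that are right and left V-rings

Partial results on MP_2175e6_al (helper91): a prime right and left V-ring in which every proper
finitely generated right ideal has a nonzero left annihilator (e.g. a regular ring) is right
primitive if at most `ℵ₁` elements meet every nonzero ideal.
-/

open MulOpposite Pool.Agent.VRing Pool.Agent.VRing23 Cardinal

namespace Pool.Agent.VRing91

universe u

/-- `R` is a left V-ring: every simple left `R`-module is injective. -/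
def LeftV (R : Type u) [Ring R] : Prop :=
  ∀ (M : Type u) [AddCommGroup M] [Module R M], IsSimpleModule R M → Module.Injective R M

variable {R : Type u} [Ring R]

/-- In a left V-ring, every element outside a left ideal is outside some maximal left
ideal containing the given one. -/
lemma LeftV.exists_maximal (hV : LeftV R) (I : Submodule R R) (a : R) (ha : a ∉ I) :
    ∃ M : Submodule R R, IsCoatom M ∧ I ≤ M ∧ a ∉ M := by
  obtain ⟨L, hIL, hL⟩ := zorn_le_nonempty₀ {L : Submodule R R | a ∉ L} (by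
    intro c hc hchain y hy
    refine ⟨sSup c, ?_, fun z hz => le_sSup hz⟩
    intro hmem
    rw [Submodule.mem_sSup_of_directed ⟨y, hy⟩ hchain.directedOn] at hmem
    obtain ⟨A, hA, haA⟩ := hmem
    exact hc hA haA) I ha
  have haL : a ∉ L := hL.prop
  let a' : R ⧸ L := L.mkQ a
  have ha' : a' ≠ 0 := by
    intro h
    apply haL
    simpa [a'] using h
  have hatom : IsAtom (Submodule.span R {a'}) := by
    constructor
    · rw [Ne, Submodule.span_singleton_eq_bot]; exact ha'
    · intro N hN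
      by_contra hN0
      have h1 : L < N.comap L.mkQ := by
        refine lt_of_le_of_ne (fun x hx => ?_) (fun h => hN0 ?_)
        · have : L.mkQ x = 0 := by simpa using hx
          rw [Submodule.mem_comap, this]; exact N.zero_mem
        · rw [eq_bot_iff]
          intro y hy
          obtain ⟨x, rfl⟩ := L.mkQ_surjective y
          have : x ∈ N.comap L.mkQ := hy
          rw [← h] at this
          simpa using this
      have h2 : a ∈ N.comap L.mkQ := by
        by_contra h3
        exact absurd (hL.le_of_ge h3 h1.le) (not_le_of_gt h1)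
      have h3 : Submodule.span R {a'} ≤ N := by
        rw [Submodule.span_singleton_le_iff_mem]; exact h2
      exact absurd hN (not_lt_of_ge h3)
  have hsimple : IsSimpleModule R (Submodule.span R {a'}) :=
    isSimpleModule_iff_isAtom.mpr hatom
  have hinj := hV (Submodule.span R {a'}) hsimple
  obtain ⟨h, hh⟩ := hinj.out (Submodule.span R {a'}).subtype
    (Submodule.injective_subtype _) LinearMap.id
  let g : R →ₗ[R] (Submodule.span R {a'}) := h.comp L.mkQ
  have hgsurj : Function.Surjective g := by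
    intro y
    obtain ⟨x, hx⟩ := L.mkQ_surjective (y : R ⧸ L)
    refine ⟨x, ?_⟩
    change h (L.mkQ x) = y
    rw [hx]
    simpa using hh y
  refine ⟨LinearMap.ker g, ?_, ?_, ?_⟩
  · rw [← isSimpleModule_iff_isCoatom]
    exact IsSimpleModule.congr (g.quotKerEquivOfSurjective hgsurj)
  · refine hIL.trans (fun x hx => ?_)
    rw [LinearMap.mem_ker]
    change h (L.mkQ x) = 0
    have : L.mkQ x = 0 := by simpa using hx
    rw [this, map_zero]
  · rw [LinearMap.mem_ker]
    change ¬ h (L.mkQ a) = 0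
    have h1 := hh ⟨a', Submodule.mem_span_singleton_self a'⟩
    have h2 : h (L.mkQ a) = ⟨a', Submodule.mem_span_singleton_self a'⟩ := h1
    rw [h2]
    intro h3
    exact ha' (by simpa using congrArg Subtype.val h3)

/-- In a left V-ring, every `a` satisfies `a = x * a` with `x ∈ R a R`. -/
lemma LeftV.exists_local_unit (hV : LeftV R) (a : R) :
    ∃ x ∈ TwoSidedIdeal.span {a}, a = x * a := by
  have hmem : a ∈ Submodule.span R {y : R | ∃ r, y = a * r * a} := by
    by_contra ha
    obtain ⟨M, hM, hle, haM⟩ := hV.exists_maximal _ a ha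
    have h1 : M ⊔ Submodule.span R {a} = ⊤ := by
      apply hM.2
      refine lt_of_le_of_ne le_sup_left (fun h => haM ?_)
      rw [h]
      exact Submodule.mem_sup_right (Submodule.mem_span_singleton_self a)
    have h2 : (1 : R) ∈ M ⊔ Submodule.span R {a} := by rw [h1]; trivial
    obtain ⟨m, hm, y, hy, hmy⟩ := Submodule.mem_sup.mp h2
    obtain ⟨r, rfl⟩ := Submodule.mem_span_singleton.mp hy
    apply haM
    have h3 : a = a * m + a * r * a := by
      have h4 := congrArg (fun z => a * z) hmy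
      simp only [mul_one, mul_add, smul_eq_mul, ← mul_assoc] at h4
      exact h4.symm
    rw [h3]
    refine M.add_mem (M.smul_mem a hm) (hle (Submodule.subset_span ⟨r, rfl⟩))
  have key : ∀ y ∈ Submodule.span R {y : R | ∃ r, y = a * r * a},
      ∃ x ∈ TwoSidedIdeal.span {a}, y = x * a := by
    intro y hy
    induction hy using Submodule.span_induction with
    | mem y hy =>
      obtain ⟨r, rfl⟩ := hy
      exact ⟨a * r, TwoSidedIdeal.mul_mem_right _ _ _
        (TwoSidedIdeal.subset_span (Set.mem_singleton a)), rfl⟩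
    | zero => exact ⟨0, TwoSidedIdeal.zero_mem _, by simp⟩
    | add x y _ _ hx hy =>
      obtain ⟨x', hx', rfl⟩ := hx
      obtain ⟨y', hy', rfl⟩ := hy
      exact ⟨x' + y', TwoSidedIdeal.add_mem _ hx' hy', by rw [add_mul]⟩
    | smul s x _ hx =>
      obtain ⟨x', hx', rfl⟩ := hx
      exact ⟨s * x', TwoSidedIdeal.mul_mem_left _ _ _ hx', by
        rw [mul_assoc]; rfl⟩
  exact key a hmem

/-- For countably many nonzero elements `c n` of a prime left V-ring there is a maximal left
ideal `q` such that no `c n` annihilates `R ⧸ q`. -/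
lemma exists_simple_left [Nontrivial R] (hp : Pr R) (hV : LeftV R) (c : ℕ → R)
    (hc : ∀ n, c n ≠ 0) :
    ∃ q : Submodule R R, IsCoatom q ∧ ∀ n, ∃ s : R ⧸ q, c n • s ≠ 0 := by
  classical
  have hstep : ∀ (n : ℕ) (b : {b : R // b ≠ 0}), ∃ (b' : {b : R // b ≠ 0}) (r x : R),
      (b' : R) = b * r ∧ x ∈ TwoSidedIdeal.span {c n} ∧ (b' : R) = x * b' := by
    intro n b
    have : ∃ r, (b : R) * r * c n ≠ 0 := by
      by_contra hcon
      push Not at hcon
      rcases hp b (c n) hcon with h | h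
      · exact b.2 h
      · exact hc n h
    obtain ⟨r, hr⟩ := this
    obtain ⟨x, hx, hxx⟩ := hV.exists_local_unit ((b : R) * r * c n)
    refine ⟨⟨(b : R) * r * c n, hr⟩, r * c n, x, by rw [← mul_assoc], ?_, hxx⟩
    have hle : TwoSidedIdeal.span {(b : R) * r * c n} ≤ TwoSidedIdeal.span {c n} := by
      rw [TwoSidedIdeal.span_le]
      simpa using TwoSidedIdeal.mul_mem_left _ ((b : R) * r) _
        (TwoSidedIdeal.subset_span (Set.mem_singleton (c n)))
    exact hle hx
  choose nb rr xx h1 h2 h3 using hstep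
  let b : ℕ → {b : R // b ≠ 0} := fun n =>
    Nat.rec (motive := fun _ => {b : R // b ≠ 0}) ⟨1, one_ne_zero⟩ (fun n b => nb n b) n
  have hb : ∀ n, b (n + 1) = nb n (b n) := fun n => rfl
  have hmono : ∀ n s, s * (b n : R) = 0 → s * (b (n + 1) : R) = 0 := by
    intro n s hs
    rw [hb, h1, ← mul_assoc, hs, zero_mul]
  have hmono' : ∀ n m, n ≤ m → ∀ s, s * (b n : R) = 0 → s * (b m : R) = 0 := by
    intro n m hnm
    induction hnm with
    | refl => intro s hs; exact hs
    | step _ ih => intro s hs; exact hmono _ s (ih s hs)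
  let N : Submodule R R :=
    { carrier := {s | ∃ n, s * (b n : R) = 0}
      add_mem' := by
        rintro s t ⟨n, hn⟩ ⟨m, hm⟩
        refine ⟨max n m, ?_⟩
        rw [add_mul, hmono' n _ (le_max_left _ _) s hn, hmono' m _ (le_max_right _ _) t hm,
          add_zero]
      zero_mem' := ⟨0, zero_mul _⟩
      smul_mem' := by
        rintro r s ⟨n, hn⟩
        refine ⟨n, ?_⟩
        change r * s * (b n : R) = 0
        rw [mul_assoc, hn, mul_zero] }
  have hN : N ≠ ⊤ := by
    intro h
    have : (1 : R) ∈ N := by rw [h]; trivial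
    obtain ⟨n, hn⟩ := this
    rw [one_mul] at hn
    exact (b n).2 hn
  have hxN : ∀ n, 1 - xx n (b n) ∈ N := by
    intro n
    refine ⟨n + 1, ?_⟩
    rw [sub_mul, one_mul, hb, ← h3, sub_self]
  obtain ⟨q, hq, hNq⟩ := (eq_top_or_exists_le_coatom N).resolve_left hN
  refine ⟨q, hq, fun n => ?_⟩
  by_contra hcon
  push Not at hcon
  -- the annihilator contains the ideal generated by `c n`
  let P : TwoSidedIdeal R := TwoSidedIdeal.mk' {r : R | ∀ m : R ⧸ q, r • m = 0}
    (by intro m; simp)
    (by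
      intro r s hr hs m
      rw [add_smul, hr, hs, add_zero])
    (by
      intro r hr m
      rw [neg_smul, hr, neg_zero])
    (by
      intro r s hs m
      rw [mul_smul, hs, smul_zero])
    (by
      intro r s hr m
      rw [mul_smul, hr])
  have hcP : TwoSidedIdeal.span {c n} ≤ P := by
    rw [TwoSidedIdeal.span_le]
    simpa [P] using hcon
  have h4 : xx n (b n) ∈ P := hcP (h2 n (b n))
  have h5 : ∀ m : R ⧸ q, xx n (b n) • m = 0 := by
    simpa [P] using h4
  have h6 := h5 (q.mkQ 1)
  rw [← map_smul] at h6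
  have h7 : xx n (b n) ∈ q := by
    have : xx n (b n) • (1 : R) = xx n (b n) := by simp
    rw [this] at h6
    simpa using h6
  apply hq.1
  rw [eq_top_iff]
  intro s _
  have h8 : (1 : R) ∈ q := by
    have := q.add_mem (hNq (hxN n)) h7
    simpa using this
  have := q.smul_mem s h8
  simpa using this

/-- A countable set `Y` such that every finite subset has a nonzero left annihilator does not
generate a right ideal containing a nonzero ideal. -/
lemma not_le_span_of_countable [Nontrivial R] (hp : Pr R) (hw : WeaklyRegular R) (hV : LeftV R)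
    (Y : Set R) (hY : Y.Countable)
    (hgood : ∀ s : Finset R, (s : Set R) ⊆ Y → ∃ z : R, z ≠ 0 ∧ ∀ y ∈ s, z * y = 0)
    (g : R) (hg : g ≠ 0) :
    ∃ x ∈ TwoSidedIdeal.span {g}, x ∉ Submodule.span Rᵐᵒᵖ Y := by
  classical
  by_contra hcon
  push Not at hcon
  obtain ⟨y, hy⟩ : ∃ y : ℕ → R, insert 0 Y = Set.range y :=
    (hY.insert 0).exists_eq_range ⟨0, Or.inl rfl⟩
  have hspan : Submodule.span Rᵐᵒᵖ Y = Submodule.span Rᵐᵒᵖ (Set.range y) := by
    rw [← hy, Submodule.span_insert_zero]
  -- the left annihilators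
  let Z : ℕ → R → Prop := fun n z => ∀ i < n, z * y i = 0
  have hZ : ∀ n, ∃ z, z ≠ 0 ∧ Z n z := by
    intro n
    obtain ⟨z, hz, hz'⟩ := hgood (((Finset.range n).image y).filter (fun w => w ∈ Y)) (by
      intro w hw
      simp only [Finset.coe_filter, Set.mem_ofPred_eq] at hw
      exact hw.2)
    refine ⟨z, hz, fun i hi => ?_⟩
    have h1 : y i ∈ insert 0 Y := by rw [hy]; exact ⟨i, rfl⟩
    rcases h1 with h1 | h1
    · rw [h1, mul_zero]
    · exact hz' (y i) (by
        rw [Finset.mem_filter]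
        exact ⟨Finset.mem_image.mpr ⟨i, Finset.mem_range.mpr hi, rfl⟩, h1⟩)
  -- elements of the span are in the span of finitely many `y i`
  have hfin : ∀ x ∈ Submodule.span Rᵐᵒᵖ (Set.range y), ∃ m, ∀ z, Z m z → z * x = 0 := by
    intro x hx
    induction hx using Submodule.span_induction with
    | mem x hx =>
      obtain ⟨i, rfl⟩ := hx
      exact ⟨i + 1, fun z hz => hz i (Nat.lt_succ_self i)⟩
    | zero => exact ⟨0, fun z _ => mul_zero z⟩
    | add a b _ _ ha hb =>
      obtain ⟨m, hm⟩ := ha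
      obtain ⟨k, hk⟩ := hb
      refine ⟨max m k, fun z hz => ?_⟩
      rw [mul_add, hm z (fun i hi => hz i (lt_of_lt_of_le hi (le_max_left _ _))),
        hk z (fun i hi => hz i (lt_of_lt_of_le hi (le_max_right _ _))), add_zero]
    | smul c a _ ha =>
      obtain ⟨m, hm⟩ := ha
      refine ⟨m, fun z hz => ?_⟩
      change z * (a * c.unop) = 0
      rw [← mul_assoc, hm z hz, zero_mul]
  have hgen : ∀ x ∈ TwoSidedIdeal.span {g}, ∃ m, ∀ z, Z m z → z * x = 0 := by
    intro x hx
    exact hfin x (by rw [← hspan]; exact hcon x hx)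
  -- one step
  have hstep : ∀ n, ∃ (z a : R) (m : ℕ), z ≠ 0 ∧ Z n z ∧ z = z * a ∧ n < m ∧
      ∀ w, Z m w → w * a = 0 := by
    intro n
    obtain ⟨w, hw0, hwZ⟩ := hZ n
    obtain ⟨r, hr⟩ : ∃ r, g * r * w ≠ 0 := by
      by_contra h
      push Not at h
      rcases hp g w h with h | h
      · exact hg h
      · exact hw0 h
    obtain ⟨a, ha, haz⟩ := hw.exists_local_unit (g * r * w)
    have hle : TwoSidedIdeal.span {g * r * w} ≤ TwoSidedIdeal.span {g} := by
      rw [TwoSidedIdeal.span_le]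
      simpa using TwoSidedIdeal.mul_mem_right _ _ w (TwoSidedIdeal.mul_mem_right _ _ r
        (TwoSidedIdeal.subset_span (Set.mem_singleton g)))
    obtain ⟨m, hm⟩ := hgen a (hle ha)
    refine ⟨g * r * w, a, max (n + 1) m, hr, ?_, haz, ?_, ?_⟩
    · intro i hi
      rw [mul_assoc, hwZ i hi, mul_zero]
    · exact lt_of_lt_of_le (Nat.lt_succ_self n) (le_max_left _ _)
    · intro v hv
      exact hm v (fun i hi => hv i (lt_of_lt_of_le hi (le_max_right _ _)))
  choose zf af mf hz0 hzZ hza hmf haf using hstep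
  let N : ℕ → ℕ := fun k => mf^[k] 0
  have hNs : ∀ k, N (k + 1) = mf (N k) := fun k => Function.iterate_succ_apply' mf k 0
  have hNmono : StrictMono N := strictMono_nat_of_lt_succ fun k => by
    rw [hNs]; exact hmf (N k)
  let z : ℕ → R := fun k => zf (N k)
  let a : ℕ → R := fun k => af (N k)
  have hz0' : ∀ k, z k ≠ 0 := fun k => hz0 (N k)
  have hza' : ∀ k, z k * a k = z k := fun k => (hza (N k)).symm
  have hZmono : ∀ m n w, m ≤ n → Z n w → Z m w := fun m n w hmn hw i hi =>
    hw i (lt_of_lt_of_le hi hmn)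
  have hzaj : ∀ j k, k < j → z j * a k = 0 := by
    intro j k hkj
    apply haf (N k)
    rw [← hNs]
    exact hZmono _ (N j) _ (hNmono.monotone hkj) (hzZ (N j))
  -- a simple left module
  obtain ⟨q, hq, hqs⟩ := exists_simple_left hp hV (fun k => if k = 0 then g else z (k - 1))
    (by
      intro k
      by_cases h : k = 0
      · simpa [h] using hg
      · simpa [h] using hz0' (k - 1))
  have hqg : ∃ t : R ⧸ q, g • t ≠ 0 := by simpa using hqs 0
  have hqz : ∀ k, ∃ t : R ⧸ q, z k • t ≠ 0 := fun k => by simpa using hqs (k + 1)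
  choose s hs using hqz
  have hsimple : IsSimpleModule R (R ⧸ q) := isSimpleModule_iff_isCoatom.mpr hq
  have hinj := hV (R ⧸ q) hsimple
  let φ : (ℕ →₀ R) →ₗ[R] R := Finsupp.linearCombination R z
  let ψ : (ℕ →₀ R) →ₗ[R] (R ⧸ q) := Finsupp.linearCombination R (fun k => z k • s k)
  have hker : LinearMap.ker φ ≤ LinearMap.ker ψ := by
    intro f hf
    rw [LinearMap.mem_ker] at hf ⊢
    have hsum : ∑ k ∈ f.support, f k * z k = 0 := by
      have := hf
      simpa [φ, Finsupp.linearCombination_apply, Finsupp.sum] using this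
    have hall : ∀ k, f k * z k = 0 := by
      intro k
      induction k using Nat.strong_induction_on with
      | _ k ih =>
        by_cases hk : k ∈ f.support
        · have h1 : (∑ j ∈ f.support, f j * z j) * a k = 0 := by rw [hsum, zero_mul]
          rw [Finset.sum_mul, Finset.sum_eq_single k] at h1
          · rwa [mul_assoc, hza'] at h1
          · intro j _ hjk
            rcases lt_or_gt_of_ne hjk with h | h
            · rw [ih j h, zero_mul]
            · rw [mul_assoc, hzaj j k h, mul_zero]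
          · intro h
            exact absurd hk h
        · rw [Finsupp.notMem_support_iff.mp hk, zero_mul]
    simp only [ψ, Finsupp.linearCombination_apply, Finsupp.sum]
    refine Finset.sum_eq_zero fun k _ => ?_
    rw [← mul_smul, hall k, zero_smul]
  let θ : LinearMap.range φ →ₗ[R] (R ⧸ q) :=
    ((LinearMap.ker φ).liftQ ψ hker).comp φ.quotKerEquivRange.symm.toLinearMap
  have hθ : ∀ f : ℕ →₀ R, θ ⟨φ f, ⟨f, rfl⟩⟩ = ψ f := by
    intro f
    change (LinearMap.ker φ).liftQ ψ hker (φ.quotKerEquivRange.symm ⟨φ f, ⟨f, rfl⟩⟩) = ψ f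
    have : φ.quotKerEquivRange.symm ⟨φ f, ⟨f, rfl⟩⟩ = (LinearMap.ker φ).mkQ f := by
      rw [LinearEquiv.symm_apply_eq]
      rfl
    rw [this]
    exact Submodule.liftQ_apply _ _ _
  obtain ⟨h, hh⟩ := hinj.out (LinearMap.range φ).subtype (Submodule.injective_subtype _) θ
  -- the element of the simple module
  have hst : ∀ k, z k • h 1 ≠ 0 := by
    intro k
    have h1 : z k • h 1 = h (z k) := by
      rw [← map_smul]
      simp
    have h2 : φ (Finsupp.single k 1) = z k := by
      simp [φ]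
    have h3 : h (z k) = z k • s k := by
      have h4 := hh ⟨φ (Finsupp.single k 1), ⟨_, rfl⟩⟩
      rw [hθ] at h4
      have h5 : ψ (Finsupp.single k 1) = z k • s k := by
        simp [ψ]
      rw [h5] at h4
      have h6 : h (φ (Finsupp.single k 1)) = z k • s k := h4
      rwa [h2] at h6
    rw [h1, h3]
    exact hs k
  obtain ⟨t, ht⟩ := hqg
  obtain ⟨r, hr⟩ : ∃ r : R, r • (g • t) = h 1 := by
    have htop : Submodule.span R {g • t} = ⊤ := by
      rcases eq_bot_or_eq_top (Submodule.span R {g • t}) with h0 | h0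
      · rw [Submodule.span_singleton_eq_bot] at h0
        exact absurd h0 ht
      · exact h0
    have : h 1 ∈ Submodule.span R {g • t} := by rw [htop]; trivial
    exact Submodule.mem_span_singleton.mp this
  obtain ⟨m, hm⟩ := hgen (r * g) (TwoSidedIdeal.mul_mem_left _ _ _
    (TwoSidedIdeal.subset_span (Set.mem_singleton g)))
  apply hst m
  have h1 : Z m (z m) := hZmono m (N m) _ (hNmono.id_le m) (hzZ (N m))
  rw [← hr, smul_smul, smul_smul, mul_assoc, hm _ h1, zero_smul]

lemma span_ne_top_iff (Y : Set R) :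
    Submodule.span Rᵐᵒᵖ Y ≠ ⊤ ↔ (1 : R) ∉ Submodule.span Rᵐᵒᵖ Y := by
  constructor
  · intro h h1
    apply h
    rw [eq_top_iff]
    intro t _
    have := Submodule.smul_mem _ (op t) h1
    simpa using this
  · intro h htop
    apply h
    rw [htop]
    trivial

/-- Transfinite recursion: if every proper set `Y₀ ∪ Y` with `#Y < #X` can be enlarged by some
`f ∈ 1 + (x)`, then this can be done for all `x ∈ X` simultaneously. -/
theorem exists_treat (Y₀ X : Set R) (h0 : Submodule.span Rᵐᵒᵖ Y₀ ≠ ⊤)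
    (hstep : ∀ Y : Set R, #Y < #X → Submodule.span Rᵐᵒᵖ (Y₀ ∪ Y) ≠ ⊤ → ∀ x ∈ X,
      ∃ f : R, 1 - f ∈ TwoSidedIdeal.span {x} ∧ Submodule.span Rᵐᵒᵖ (Y₀ ∪ insert f Y) ≠ ⊤) :
    ∃ F : X → R, (∀ x : X, 1 - F x ∈ TwoSidedIdeal.span {(x : R)}) ∧
      Submodule.span Rᵐᵒᵖ (Y₀ ∪ Set.range F) ≠ ⊤ := by
  classical
  obtain ⟨r, wo, hr⟩ := Cardinal.exists_ord_eq X
  let F : X → R := IsWellFounded.fix r fun x ih =>
    if h : ∃ f, 1 - f ∈ TwoSidedIdeal.span {(x : R)} ∧
        Submodule.span Rᵐᵒᵖ (Y₀ ∪ insert f {t | ∃ y hy, ih y hy = t}) ≠ ⊤ then h.choose else 0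
  have hF : ∀ x : X, F x = if h : ∃ f, 1 - f ∈ TwoSidedIdeal.span {(x : R)} ∧
        Submodule.span Rᵐᵒᵖ (Y₀ ∪ insert f {t | ∃ y, ∃ _ : r y x, F y = t}) ≠ ⊤
          then h.choose else 0 := by
    intro x
    exact IsWellFounded.fix_eq r _ x
  have hF' : ∀ x : X, (∃ f, 1 - f ∈ TwoSidedIdeal.span {(x : R)} ∧
        Submodule.span Rᵐᵒᵖ (Y₀ ∪ insert f {t | ∃ y, ∃ _ : r y x, F y = t}) ≠ ⊤) →
        1 - F x ∈ TwoSidedIdeal.span {(x : R)} ∧
        Submodule.span Rᵐᵒᵖ (Y₀ ∪ insert (F x) {t | ∃ y, ∃ _ : r y x, F y = t}) ≠ ⊤ := by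
    intro x hx
    rw [hF x, dif_pos hx]
    exact hx.choose_spec
  -- finite subsets determine properness
  have hfinite : ∀ D : Set X, (∀ z ∈ D,
      Submodule.span Rᵐᵒᵖ (Y₀ ∪ insert (F z) {t | ∃ y, ∃ _ : r y z, F y = t}) ≠ ⊤) →
      Submodule.span Rᵐᵒᵖ (Y₀ ∪ F '' D) ≠ ⊤ := by
    intro D hD
    rw [span_ne_top_iff]
    intro h1
    obtain ⟨s, hs, h1s⟩ := Submodule.mem_span_finite_of_mem_span h1
    obtain ⟨s', hs'D, hs's⟩ : ∃ s' : Finset X, (s' : Set X) ⊆ D ∧
        ∀ w ∈ s, w ∈ Y₀ ∨ ∃ z ∈ s', F z = w := by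
      have h2 : (s : Set R) ∩ F '' D ⊆ F '' D := Set.inter_subset_right
      have h3 : ((s.filter (fun w => w ∈ F '' D) : Finset R) : Set R) ⊆ F '' D := by
        intro w hw
        simp only [Finset.coe_filter, Set.mem_ofPred_eq] at hw
        exact hw.2
      obtain ⟨s', hs'D, hs's⟩ := Finset.subset_set_image_iff.mp h3
      refine ⟨s', hs'D, fun w hw => ?_⟩
      rcases hs hw with h | h
      · exact Or.inl h
      · right
        have h4 : w ∈ s'.image F := by
          rw [hs's, Finset.mem_filter]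
          exact ⟨hw, h⟩
        obtain ⟨z, hz, hzw⟩ := Finset.mem_image.mp h4
        exact ⟨z, hz, hzw⟩
    rcases s'.eq_empty_or_nonempty with hemp | hne
    · apply h0
      rw [← not_ne_iff, span_ne_top_iff, not_not]
      refine Submodule.span_mono ?_ h1s
      intro w hw
      rcases hs's w hw with h | ⟨z, hz, -⟩
      · exact h
      · rw [hemp] at hz
        simp at hz
    · obtain ⟨z, hz, hzmax⟩ : ∃ z ∈ s', ∀ y ∈ s', r y z ∨ y = z := by
        let _ : LinearOrder X := linearOrderOfSTO r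
        refine ⟨s'.max' hne, s'.max'_mem hne, fun y hy => ?_⟩
        have := s'.le_max' y hy
        rcases lt_or_eq_of_le this with h | h
        · exact Or.inl h
        · exact Or.inr h
      apply (span_ne_top_iff _).mp (hD z (hs'D hz))
      refine Submodule.span_mono ?_ h1s
      intro w hw
      rcases hs's w hw with h | ⟨y, hy, rfl⟩
      · exact Or.inl h
      · right
        rcases hzmax y hy with h | h
        · exact Or.inr ⟨y, h, rfl⟩
        · rw [h]; exact Or.inl rfl
  have hmain : ∀ x : X, 1 - F x ∈ TwoSidedIdeal.span {(x : R)} ∧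
        Submodule.span Rᵐᵒᵖ (Y₀ ∪ insert (F x) {t | ∃ y, ∃ _ : r y x, F y = t}) ≠ ⊤ := by
    intro x
    induction x using IsWellFounded.induction r with
    | ind x ih =>
      apply hF'
      have himg : {t | ∃ y, ∃ _ : r y x, F y = t} = F '' {y | r y x} := by
        ext t
        simp
      have hproper : Submodule.span Rᵐᵒᵖ (Y₀ ∪ {t | ∃ y, ∃ _ : r y x, F y = t}) ≠ ⊤ := by
        rw [himg]
        exact hfinite {y | r y x} fun z hz => (ih z hz).2
      have hcard : #({t | ∃ y, ∃ _ : r y x, F y = t} : Set R) < #X := by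
        rw [himg]
        refine mk_image_le.trans_lt ?_
        have := card_typein_lt x hr
        rwa [Ordinal.card_typein] at this
      exact hstep _ hcard hproper x x.2
  refine ⟨F, fun x => (hmain x).1, ?_⟩
  rw [← Set.image_univ]
  exact hfinite Set.univ fun z _ => (hmain z).2

/-- One step: `Y` countable, `Y R ≠ R`. -/
theorem step_of_countable [Nontrivial R] (hp : Pr R) (hV : RightV R) (hV' : LeftV R)
    (hann : ∀ s : Finset R, Submodule.span Rᵐᵒᵖ (s : Set R) ≠ ⊤ →
      ∃ z : R, z ≠ 0 ∧ ∀ y ∈ s, z * y = 0)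
    (Y : Set R) (hY : Y.Countable) (hYt : Submodule.span Rᵐᵒᵖ Y ≠ ⊤) (x : R) (hx : x ≠ 0) :
    ∃ f : R, 1 - f ∈ TwoSidedIdeal.span {x} ∧ Submodule.span Rᵐᵒᵖ (insert f Y) ≠ ⊤ := by
  obtain ⟨w, hw, hwY⟩ := not_le_span_of_countable hp hV.weaklyRegular hV' Y hY (by
    intro s hs
    apply hann
    intro htop
    apply hYt
    rw [eq_top_iff, ← htop]
    exact Submodule.span_mono hs) x hx
  obtain ⟨M, hM, hYM, hwM⟩ := hV.exists_maximal _ w hwY
  have h1 : M ⊔ Submodule.span Rᵐᵒᵖ {w} = ⊤ := by
    apply hM.2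
    refine lt_of_le_of_ne le_sup_left (fun h => hwM ?_)
    rw [h]
    exact Submodule.mem_sup_right (Submodule.mem_span_singleton_self w)
  have h2 : (1 : R) ∈ M ⊔ Submodule.span Rᵐᵒᵖ {w} := by rw [h1]; trivial
  obtain ⟨m, hm, y, hy, hmy⟩ := Submodule.mem_sup.mp h2
  obtain ⟨r, rfl⟩ := Submodule.mem_span_singleton.mp hy
  refine ⟨m, ?_, ?_⟩
  · have h3 : 1 - m = w * r.unop := by
      rw [← hmy, add_sub_cancel_left]
      rfl
    rw [h3]
    exact TwoSidedIdeal.mul_mem_right _ _ _ hw
  · intro htop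
    apply hM.1
    rw [eq_top_iff, ← htop, Submodule.span_le]
    intro t ht
    rcases ht with rfl | ht
    · exact hm
    · exact hYM (Submodule.subset_span ht)

/-- At most `ℵ₁` nonzero elements can be treated simultaneously. -/
theorem exists_treat_aleph_one [Nontrivial R] (hp : Pr R) (hV : RightV R) (hV' : LeftV R)
    (hann : ∀ s : Finset R, Submodule.span Rᵐᵒᵖ (s : Set R) ≠ ⊤ →
      ∃ z : R, z ≠ 0 ∧ ∀ y ∈ s, z * y = 0)
    (Y₀ : Set R) (hY₀ : Y₀.Countable) (h0 : Submodule.span Rᵐᵒᵖ Y₀ ≠ ⊤)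
    (X : Set R) (hX : #X ≤ ℵ₁) (hX0 : ∀ x ∈ X, x ≠ 0) :
    ∃ F : X → R, (∀ x : X, 1 - F x ∈ TwoSidedIdeal.span {(x : R)}) ∧
      Submodule.span Rᵐᵒᵖ (Y₀ ∪ Set.range F) ≠ ⊤ := by
  refine exists_treat Y₀ X h0 fun Y hY hYt x hx => ?_
  have hYc : Y.Countable := by
    rw [← Cardinal.le_aleph0_iff_set_countable, ← Order.lt_succ_iff, Cardinal.succ_aleph0]
    exact hY.trans_le hX
  obtain ⟨f, hf1, hf2⟩ := step_of_countable hp hV hV' hann (Y₀ ∪ Y) (hY₀.union hYc) hYt x
    (hX0 x hx)
  refine ⟨f, hf1, ?_⟩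
  rwa [Set.union_insert]

/-- If the span over the centre of `S` meets every nonzero ideal, then there is a coinitial set of
cardinality at most `max ℵ₀ #S`. -/
theorem exists_coin (hp : Pr R) (hV : RightV R) [Nontrivial R] (S : Set R)
    (hS : ℵ₀ ≤ #S)
    (hmeet : ∀ I : TwoSidedIdeal R, I ≠ ⊥ →
      ∃ x ∈ Submodule.span (Subring.center R) S, x ∈ I ∧ x ≠ 0) :
    ∃ X : Set R, #X ≤ #S ∧ Coin X := by
  classical
  have hw := hV.weaklyRegular
  have hidem := hw.fullyIdempotent
  let _ : Field (Subring.center R) := (isField_center hidem hp).toField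
  let V : Finset S → Submodule (Subring.center R) R := fun t =>
    Submodule.span (Subring.center R) (Subtype.val '' (t : Set S))
  have hVfin : ∀ t, FiniteDimensional (Subring.center R) (V t) := fun t =>
    FiniteDimensional.span_of_finite _ ((Finset.finite_toSet _).image _)
  have hJ : ∀ t, ∃ J : TwoSidedIdeal R, J ≠ ⊥ ∧
      ∀ v ∈ V t, v ≠ 0 → J ≤ orbit (Subring.center R) v := fun t =>
    exists_common_ideal hp hidem _ (V t) le_rfl
  choose J hJ0 hJV using hJ
  choose c hc hc0 using fun t => exists_mem_ne_zero (hJ0 t)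
  refine ⟨Set.range c, ?_, ?_⟩
  · refine mk_range_le.trans ?_
    have hinf : Infinite S := Cardinal.infinite_iff.mpr hS
    rw [Cardinal.mk_finset_of_infinite]
  · intro I hI
    obtain ⟨x, hx, hxI, hx0⟩ := hmeet I hI
    obtain ⟨t, ht, hxt⟩ := Submodule.mem_span_finite_of_mem_span hx
    have hxV : x ∈ V (t.subtype (fun w => w ∈ S)) := by
      refine Submodule.span_mono ?_ hxt
      intro w hw
      exact ⟨⟨w, ht hw⟩, by simpa using hw, rfl⟩
    exact ⟨c _, ⟨_, rfl⟩, hc0 _, orbit_le hxI (hJV _ x hxV hx0 (hc _))⟩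

/-- A prime right and left V-ring in which proper finitely generated right ideals have nonzero
left annihilators is right primitive if the span over the centre of a set of cardinality at most
`ℵ₁` meets every nonzero ideal. -/
theorem rightPrimitive_of_aleph_one (R : Type u) [Ring R] [Nontrivial R] (hp : Pr R)
    (hV : RightV R) (hV' : LeftV R)
    (hann : ∀ s : Finset R, Submodule.span Rᵐᵒᵖ (s : Set R) ≠ ⊤ →
      ∃ z : R, z ≠ 0 ∧ ∀ y ∈ s, z * y = 0)
    (S : Set R) (hS : #S ≤ ℵ₁)
    (hmeet : ∀ I : TwoSidedIdeal R, I ≠ ⊥ →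
      ∃ x ∈ Submodule.span (Subring.center R) S, x ∈ I ∧ x ≠ 0) :
    RightPrimitive R := by
  classical
  rcases lt_or_ge #S ℵ₀ with hfin | hinf
  · have hSc : S.Countable := by
      rw [← Cardinal.le_aleph0_iff_set_countable]
      exact hfin.le
    exact primitive_of_countable R hp hV S hSc hmeet
  obtain ⟨X0, hX0c, hX0⟩ := exists_coin hp hV S hinf hmeet
  let X : Set R := {x | x ∈ X0 ∧ x ≠ 0}
  have hXcard : #X ≤ ℵ₁ := (mk_le_mk_of_subset fun x hx => hx.1).trans (hX0c.trans hS)
  have hco : ∀ I : TwoSidedIdeal R, I ≠ ⊥ → ∃ x ∈ X, x ∈ I := by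
    intro I hI
    obtain ⟨x, hx, hx0, hxI⟩ := hX0 I hI
    exact ⟨x, ⟨hx, hx0⟩, hxI⟩
  obtain ⟨F, hF1, hF2⟩ := exists_treat_aleph_one hp hV hV' hann ∅ Set.countable_empty (by
    rw [Submodule.span_empty]
    exact bot_ne_top) X hXcard (fun x hx => hx.2)
  have hfin : Module.Finite Rᵐᵒᵖ R := finite_right
  obtain ⟨M, hM, hNM⟩ := (eq_top_or_exists_le_coatom _).resolve_left hF2
  refine rightPrimitive_of_coatom M hM fun I hI => ?_
  by_contra hI0
  obtain ⟨x, hx, hxI⟩ := hco I hI0
  have h1 := hF1 ⟨x, hx⟩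
  have h2 : F ⟨x, hx⟩ ∈ M := hNM (Submodule.subset_span (Or.inr ⟨_, rfl⟩))
  have h3 : 1 - F ⟨x, hx⟩ ∈ M := by
    apply hI
    have hle : TwoSidedIdeal.span {x} ≤ I := by
      rw [TwoSidedIdeal.span_le]
      simpa using hxI
    exact hle h1
  apply hM.1
  rw [eq_top_iff]
  intro t _
  have h4 : (1 : R) ∈ M := by
    have := M.add_mem h3 h2
    simpa using this
  have := M.smul_mem (op t) h4
  simpa using this

end Pool.Agent.VRing91
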